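import Pool.Agent.H954Z.LocProof

/-!
# The locality tensor product of locality vector spaces need not be a locality vector space
-/

set_option autoImplicit false

namespace Pool.Agent.Results.MP_16c542_al.ANotLocality

open Pool.Agent.H954Z.Loc

universe u

/-- Over every field `K` there is a locality vector space `(E, top)` with `E = K^9`, in which no
nonzero vector is independent of itself, such that for `V = W = E` the polar set of some subset `S`
of the locality tensor product, for the quotient locality relation, is not closed under addition. -/
theorem result (K : Type u) [Field K] :
    ∃ top : (Fin 9 → K) → (Fin 9 → K) → Prop,
      IsLocalityVS K top ∧ (∀ x, top x x → x = 0) ∧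
      ¬ PolarsAddClosed top (⊤ : Submodule K (Fin 9 → K)) ⊤ :=
  main K

end Pool.Agent.Results.MP_16c542_al.ANotLocality
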